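import Pool.Agent.Helper74.DR.St

/-! # Project DR, module RUN: soundness of the simulation -/

set_option autoImplicit false

namespace Pool.Agent.Helper57.DR

open Pool.Agent.Helper74.DR

theorem fin_iff (s : List Bool) : Tr fin (s.map some) [] ↔ s = [true, true, false] := by
  have h := tr_cls [true, true, false] s []
  have e : ([true, true, false].map fun t => (some (t, false) : Option (Bool × Bool))) = fin := rfl
  rw [e] at h
  rw [h]
  constructor
  · rintro ⟨s', h1, h2⟩
    have h3 : s' = [] := List.map_eq_nil_iff.1 h2.symm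
    rw [h1, h3]
    rfl
  · intro h1
    exact ⟨[], by rw [h1]; rfl, rfl⟩

theorem hRUN (hBLK : StBLK) : StRUN := by
  intro α W code rk hC l hl
  have hbad : ∀ (w : List α) (σ : List Bool), Bad code rk σ →
      ¬ Tr ((w.flatMap fun a => blk code rk (l a)) ++ fin) (σ.map some) [] := by
    intro w
    induction w with
    | nil =>
      intro σ hσ h
      rw [List.flatMap_nil, List.nil_append, fin_iff] at h
      obtain ⟨i, s, r, σ₁, h1, _⟩ := hσ
      rw [h1] at h
      have h2 := congrArg List.length h
      simp only [N0, fl, List.length_append, List.length_cons, List.length_nil] at h2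
      omega
    | cons a w ih =>
      intro σ hσ h
      rw [List.flatMap_cons, List.append_assoc, tr_append] at h
      obtain ⟨ρ, h1, h2⟩ := h
      obtain ⟨σ', h3, h4⟩ := (hBLK W code rk hC (l a) (hl a)).2 σ ρ hσ h1
      rw [h3] at h2
      exact ih σ' h4 h2
  intro w
  induction w with
  | nil =>
    intro i s h
    rw [List.flatMap_nil, List.nil_append, fin_iff] at h
    simp only [N0, fl, List.cons_append, List.nil_append, List.cons.injEq, true_and] at h
    obtain ⟨h1, h2⟩ := h
    refine ⟨h1, ?_⟩
    rcases s with _ | ⟨X, s⟩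
    · exact Acc.nil
    · exfalso
      obtain ⟨n, hn, hlen⟩ := hC.2.1
      rw [List.flatMap_cons] at h2
      have h3 := (List.append_eq_nil_iff.1 h2).1
      have h4 := hlen X
      rw [h3, List.length_nil] at h4
      omega
  | cons a w ih =>
    intro i s h
    rw [List.flatMap_cons, List.append_assoc, tr_append] at h
    obtain ⟨ρ, h1, h2⟩ := h
    obtain ⟨hi, h3⟩ := (hBLK W code rk hC (l a) (hl a)).1 i s ρ h1
    refine ⟨hi, ?_⟩
    rcases h3 with h3 | ⟨p, hp, s', hs, h3⟩ | ⟨σ', h3, h4⟩
    · rw [h3] at h2
      have := (ih false s h2).1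
      exact absurd this (by simp)
    · rw [h3] at h2
      have h5 := (ih true (p.2 ++ s') h2).2
      rw [hs]
      exact Acc.step a p.1 p.2 s' w hp h5
    · rw [h3] at h2
      exact absurd h2 (hbad w σ' h4)

end Pool.Agent.Helper57.DR
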